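import Mathlib

set_option autoImplicit false

namespace Pool.Agent.Results.MP_751e6a_co.ReducedDegreeGap

open scoped Pointwise

/-- The real point with the given integer coordinates. -/
def pt {n : ℕ} (a : Fin n → ℤ) : Fin n → ℝ := fun i => (a i : ℝ)

/-- `P` is the convex hull of finitely many lattice points. -/
def IsLatticePolytope {n : ℕ} (P : Set (Fin n → ℝ)) : Prop :=
  ∃ V : Finset (Fin n → ℤ), P = convexHull ℝ (pt '' (V : Set (Fin n → ℤ)))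

/-- `P` is normal: for `N ≥ 2` every lattice point of `N P` is a sum of `N` lattice points
of `P`. -/
def IsNormal {n : ℕ} (P : Set (Fin n → ℝ)) : Prop :=
  ∀ N : ℕ, 2 ≤ N → ∀ a : Fin n → ℤ, pt a ∈ (N : ℝ) • P →
    ∃ b : Fin N → (Fin n → ℤ), (∀ i, pt (b i) ∈ P) ∧ ∑ i, b i = a

/-- The set of all `r` with `1 ≤ r ≤ N` such that `a = a₀ + a'` with `a₀` a lattice point of
`r P°` and `a'` a lattice point of `(N - r) P`. -/
def splitDegrees {n : ℕ} (P : Set (Fin n → ℝ)) (N : ℕ) (a : Fin n → ℤ) : Set ℕ :=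
  {r | 1 ≤ r ∧ r ≤ N ∧ ∃ a₀ a' : Fin n → ℤ,
    pt a₀ ∈ (r : ℝ) • interior P ∧ pt a' ∈ ((N - r : ℕ) : ℝ) • P ∧ a = a₀ + a'}

/-- The reduced `P`-degree of a lattice point `a` of `N P°`: the least element of
`splitDegrees P N a`. -/
noncomputable def reducedDegree {n : ℕ} (P : Set (Fin n → ℝ)) (N : ℕ) (a : Fin n → ℤ) : ℕ :=
  sInf (splitDegrees P N a)

/-- Some lattice point of some `N P°`, `N ≥ 1`, has reduced `P`-degree `i`. -/
def Attained {n : ℕ} (P : Set (Fin n → ℝ)) (i : ℕ) : Prop :=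
  ∃ N : ℕ, 1 ≤ N ∧ ∃ a : Fin n → ℤ, pt a ∈ (N : ℝ) • interior P ∧ reducedDegree P N a = i

/-- `P` has int* degree `d`: `d` is the largest reduced `P`-degree. -/
def HasIntStarDegree {n : ℕ} (P : Set (Fin n → ℝ)) (d : ℕ) : Prop :=
  IsGreatest {i | Attained P i} d

/-! ### The example -/

/-- The vertices. -/
def vert : Fin 10 → (Fin 5 → ℤ) :=
  ![![0, 0, 0, 0, 0], ![3, 0, 0, 0, 0], ![3, 1, 0, 0, 0], ![3, 0, 1, 0, 0], ![3, 0, 0, 1, 0],
    ![3, 0, 0, 0, 1], ![0, 7, 0, 0, 0], ![0, 0, 7, 0, 0], ![0, 0, 0, 7, 0], ![0, 0, 0, 0, 7]]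

/-- The polytope, as a convex hull. -/
def poly : Set (Fin 5 → ℝ) := convexHull ℝ (pt '' (Set.range vert))

/-- The inequalities of the `N`-th dilate. -/
def K (N : ℝ) : Set (Fin 5 → ℝ) :=
  {x | (∀ i, 0 ≤ x i) ∧ x 0 ≤ 3 * N ∧ 2 * x 0 + (x 1 + x 2 + x 3 + x 4) ≤ 7 * N}

/-- The strict inequalities of the `N`-th dilate. -/
def J (N : ℝ) : Set (Fin 5 → ℝ) :=
  {x | (∀ i, 0 < x i) ∧ x 0 < 3 * N ∧ 2 * x 0 + (x 1 + x 2 + x 3 + x 4) < 7 * N}

lemma convex_K (N : ℝ) : Convex ℝ (K N) := by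
  intro x hx y hy a b ha hb hab
  obtain ⟨hx1, hx2, hx3⟩ := hx
  obtain ⟨hy1, hy2, hy3⟩ := hy
  refine ⟨fun i => ?_, ?_, ?_⟩
  · simp only [Pi.add_apply, Pi.smul_apply, smul_eq_mul]
    exact add_nonneg (mul_nonneg ha (hx1 i)) (mul_nonneg hb (hy1 i))
  · simp only [Pi.add_apply, Pi.smul_apply, smul_eq_mul]
    have h1 := mul_le_mul_of_nonneg_left hx2 ha
    have h2 := mul_le_mul_of_nonneg_left hy2 hb
    have h3 : a * (3 * N) + b * (3 * N) = 3 * N := by rw [← add_mul, hab, one_mul]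
    linarith
  · simp only [Pi.add_apply, Pi.smul_apply, smul_eq_mul]
    have h1 := mul_le_mul_of_nonneg_left hx3 ha
    have h2 := mul_le_mul_of_nonneg_left hy3 hb
    have h3 : a * (7 * N) + b * (7 * N) = 7 * N := by rw [← add_mul, hab, one_mul]
    linarith

lemma poly_eq : poly = K 1 := by
  apply Set.Subset.antisymm
  · refine convexHull_min ?_ (convex_K 1)
    rintro _ ⟨_, ⟨i, rfl⟩, rfl⟩
    fin_cases i <;> refine ⟨fun j => ?_, ?_, ?_⟩ <;>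
      first
      | (fin_cases j <;> simp [pt, vert])
      | (simp [pt, vert]; try norm_num)
  · intro x hx
    obtain ⟨hx1, hx2, hx3⟩ := hx
    have h0 := hx1 0
    have h1 := hx1 1
    have h2 := hx1 2
    have h3 := hx1 3
    have h4 := hx1 4
    obtain ⟨α, hα0, hα1, hα2, hα3⟩ : ∃ α : ℝ, 0 ≤ α ∧ α ≤ 1 ∧
        α * (x 1 + x 2 + x 3 + x 4) ≤ x 0 / 3 ∧
        (1 - α) * (x 1 + x 2 + x 3 + x 4) ≤ 7 * (1 - x 0 / 3) := by
      by_cases hs : x 1 + x 2 + x 3 + x 4 ≤ x 0 / 3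
      · exact ⟨1, zero_le_one, le_rfl, by linarith, by linarith⟩
      · push Not at hs
        have hpos : 0 < x 1 + x 2 + x 3 + x 4 := lt_of_le_of_lt (by positivity) hs
        refine ⟨x 0 / 3 / (x 1 + x 2 + x 3 + x 4), by positivity, ?_, ?_, ?_⟩
        · rw [div_le_one hpos]
          exact hs.le
        · rw [div_mul_cancel₀ _ hpos.ne']
        · rw [sub_mul, div_mul_cancel₀ _ hpos.ne']
          linarith
    have hβ : 0 ≤ 1 - α := by linarith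
    refine mem_convexHull_of_exists_fintype
      (w := ![1 - x 0 / 3 - (1 - α) * (x 1 + x 2 + x 3 + x 4) / 7,
        x 0 / 3 - α * (x 1 + x 2 + x 3 + x 4),
        α * x 1, α * x 2, α * x 3, α * x 4, (1 - α) * x 1 / 7, (1 - α) * x 2 / 7,
        (1 - α) * x 3 / 7, (1 - α) * x 4 / 7])
      (z := fun i => pt (vert i)) ?_ ?_ ?_ ?_
    · intro i
      fin_cases i
      · show 0 ≤ 1 - x 0 / 3 - (1 - α) * (x 1 + x 2 + x 3 + x 4) / 7
        linarith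
      · show 0 ≤ x 0 / 3 - α * (x 1 + x 2 + x 3 + x 4)
        linarith
      · exact mul_nonneg hα0 h1
      · exact mul_nonneg hα0 h2
      · exact mul_nonneg hα0 h3
      · exact mul_nonneg hα0 h4
      · exact div_nonneg (mul_nonneg hβ h1) (by norm_num)
      · exact div_nonneg (mul_nonneg hβ h2) (by norm_num)
      · exact div_nonneg (mul_nonneg hβ h3) (by norm_num)
      · exact div_nonneg (mul_nonneg hβ h4) (by norm_num)
    · simp only [Fin.sum_univ_succ, Fin.sum_univ_zero, Matrix.cons_val_zero, Matrix.cons_val_succ]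
      ring
    · intro i
      exact ⟨vert i, ⟨i, rfl⟩, rfl⟩
    · ext j
      rw [Finset.sum_apply]
      simp only [Pi.smul_apply, smul_eq_mul]
      simp only [Fin.sum_univ_succ, Fin.sum_univ_zero, Matrix.cons_val_zero, Matrix.cons_val_succ,
        vert, pt]
      fin_cases j <;> simp <;> ring

lemma smul_K (N : ℕ) : (N : ℝ) • K 1 = K N := by
  rcases Nat.eq_zero_or_pos N with rfl | hN
  · have hne : (K 1).Nonempty := ⟨0, by intro i; simp, by simp, by simp⟩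
    rw [Nat.cast_zero, Set.zero_smul_set hne]
    ext x
    simp only [Set.mem_zero, K, Set.mem_ofPred_eq]
    constructor
    · rintro rfl
      simp
    · rintro ⟨h1, h2, h3⟩
      have h0 := h1 0
      have h1' := h1 1
      have h2' := h1 2
      have h3' := h1 3
      have h4' := h1 4
      ext j
      fin_cases j <;> simp <;> linarith
  · have hN' : (0 : ℝ) < N := by exact_mod_cast hN
    ext x
    rw [Set.mem_smul_set_iff_inv_smul_mem₀ hN'.ne']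
    constructor
    · rintro ⟨h1, h2, h3⟩
      simp only [Pi.smul_apply, smul_eq_mul] at h1 h2 h3
      refine ⟨fun i => ?_, ?_, ?_⟩
      · have := mul_nonneg hN'.le (h1 i)
        rwa [← mul_assoc, mul_inv_cancel₀ hN'.ne', one_mul] at this
      · have := mul_le_mul_of_nonneg_left h2 hN'.le
        rw [← mul_assoc, mul_inv_cancel₀ hN'.ne', one_mul] at this
        linarith
      · have := mul_le_mul_of_nonneg_left h3 hN'.le
        have e : (N : ℝ) * (2 * ((N : ℝ)⁻¹ * x 0) + ((N : ℝ)⁻¹ * x 1 + (N : ℝ)⁻¹ * x 2 +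
            (N : ℝ)⁻¹ * x 3 + (N : ℝ)⁻¹ * x 4)) =
            ((N : ℝ) * (N : ℝ)⁻¹) * (2 * x 0 + (x 1 + x 2 + x 3 + x 4)) := by ring
        rw [e, mul_inv_cancel₀ hN'.ne', one_mul] at this
        linarith
    · rintro ⟨h1, h2, h3⟩
      have hi : 0 < (N : ℝ)⁻¹ := inv_pos.2 hN'
      refine ⟨fun i => ?_, ?_, ?_⟩
      · exact mul_nonneg hi.le (h1 i)
      · have := mul_le_mul_of_nonneg_left h2 hi.le
        simp only [Pi.smul_apply, smul_eq_mul]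
        have e : (N : ℝ)⁻¹ * (3 * N) = ((N : ℝ)⁻¹ * N) * 3 := by ring
        rw [e, inv_mul_cancel₀ hN'.ne', one_mul] at this
        linarith
      · have := mul_le_mul_of_nonneg_left h3 hi.le
        simp only [Pi.smul_apply, smul_eq_mul]
        have e : (N : ℝ)⁻¹ * (7 * N) = ((N : ℝ)⁻¹ * N) * 7 := by ring
        rw [e, inv_mul_cancel₀ hN'.ne', one_mul] at this
        have e2 : (N : ℝ)⁻¹ * (2 * x 0 + (x 1 + x 2 + x 3 + x 4)) =
          2 * ((N : ℝ)⁻¹ * x 0) + ((N : ℝ)⁻¹ * x 1 + (N : ℝ)⁻¹ * x 2 +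
            (N : ℝ)⁻¹ * x 3 + (N : ℝ)⁻¹ * x 4) := by ring
        rw [e2] at this
        linarith

lemma smul_J (N : ℕ) (hN : 0 < N) : (N : ℝ) • J 1 = J N := by
  have hN' : (0 : ℝ) < N := by exact_mod_cast hN
  ext x
  rw [Set.mem_smul_set_iff_inv_smul_mem₀ hN'.ne']
  constructor
  · rintro ⟨h1, h2, h3⟩
    simp only [Pi.smul_apply, smul_eq_mul] at h1 h2 h3
    refine ⟨fun i => ?_, ?_, ?_⟩
    · have := mul_pos hN' (h1 i)
      rwa [← mul_assoc, mul_inv_cancel₀ hN'.ne', one_mul] at this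
    · have := mul_lt_mul_of_pos_left h2 hN'
      rw [← mul_assoc, mul_inv_cancel₀ hN'.ne', one_mul] at this
      linarith
    · have := mul_lt_mul_of_pos_left h3 hN'
      have e : (N : ℝ) * (2 * ((N : ℝ)⁻¹ * x 0) + ((N : ℝ)⁻¹ * x 1 + (N : ℝ)⁻¹ * x 2 +
          (N : ℝ)⁻¹ * x 3 + (N : ℝ)⁻¹ * x 4)) =
          ((N : ℝ) * (N : ℝ)⁻¹) * (2 * x 0 + (x 1 + x 2 + x 3 + x 4)) := by ring
      rw [e, mul_inv_cancel₀ hN'.ne', one_mul] at this
      linarith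
  · rintro ⟨h1, h2, h3⟩
    have hi : 0 < (N : ℝ)⁻¹ := inv_pos.2 hN'
    refine ⟨fun i => ?_, ?_, ?_⟩
    · exact mul_pos hi (h1 i)
    · have := mul_lt_mul_of_pos_left h2 hi
      simp only [Pi.smul_apply, smul_eq_mul]
      have e : (N : ℝ)⁻¹ * (3 * N) = ((N : ℝ)⁻¹ * N) * 3 := by ring
      rw [e, inv_mul_cancel₀ hN'.ne', one_mul] at this
      linarith
    · have := mul_lt_mul_of_pos_left h3 hi
      simp only [Pi.smul_apply, smul_eq_mul]
      have e : (N : ℝ)⁻¹ * (7 * N) = ((N : ℝ)⁻¹ * N) * 7 := by ring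
      rw [e, inv_mul_cancel₀ hN'.ne', one_mul] at this
      have e2 : (N : ℝ)⁻¹ * (2 * x 0 + (x 1 + x 2 + x 3 + x 4)) =
        2 * ((N : ℝ)⁻¹ * x 0) + ((N : ℝ)⁻¹ * x 1 + (N : ℝ)⁻¹ * x 2 +
          (N : ℝ)⁻¹ * x 3 + (N : ℝ)⁻¹ * x 4) := by ring
      rw [e2] at this
      linarith

lemma isOpen_J (N : ℝ) : IsOpen (J N) := by
  have h1 : IsOpen {x : Fin 5 → ℝ | ∀ i, 0 < x i} := by
    have : {x : Fin 5 → ℝ | ∀ i, 0 < x i} = ⋂ i, {x | 0 < x i} := by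
      ext x
      simp
    rw [this]
    exact isOpen_iInter_of_finite fun i => isOpen_lt continuous_const (continuous_apply i)
  have h2 : IsOpen {x : Fin 5 → ℝ | x 0 < 3 * N} :=
    isOpen_lt (continuous_apply 0) continuous_const
  have h3 : IsOpen {x : Fin 5 → ℝ | 2 * x 0 + (x 1 + x 2 + x 3 + x 4) < 7 * N} :=
    isOpen_lt (by fun_prop) continuous_const
  exact h1.inter (h2.inter h3)

lemma exists_eps {U : Set (Fin 5 → ℝ)} {x : Fin 5 → ℝ} (hx : x ∈ interior U) (v : Fin 5 → ℝ) :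
    ∃ ε : ℝ, 0 < ε ∧ x + ε • v ∈ U := by
  have hU : U ∈ nhds x := mem_interior_iff_mem_nhds.1 hx
  have hc : Filter.Tendsto (fun t : ℝ => x + t • v) (nhds 0) (nhds x) := by
    have : Continuous (fun t : ℝ => x + t • v) := by fun_prop
    simpa using this.tendsto 0
  have h1 : ∀ᶠ t in nhds (0 : ℝ), x + t • v ∈ U := hc hU
  have h2 : ∀ᶠ t in nhdsWithin (0 : ℝ) (Set.Ioi 0), x + t • v ∈ U := h1.filter_mono inf_le_left
  obtain ⟨ε, h, hε⟩ := (h2.and self_mem_nhdsWithin).exists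
  exact ⟨ε, hε, h⟩

lemma interior_K : interior (K 1) = J 1 := by
  apply Set.Subset.antisymm
  · intro x hx
    refine ⟨fun i => ?_, ?_, ?_⟩
    · obtain ⟨ε, hε, h⟩ := exists_eps hx (-(Pi.single i 1))
      have := h.1 i
      simp only [Pi.add_apply, Pi.smul_apply, Pi.neg_apply, Pi.single_eq_same, smul_eq_mul] at this
      linarith
    · obtain ⟨ε, hε, h⟩ := exists_eps hx (Pi.single 0 1)
      have := h.2.1
      simp only [Pi.add_apply, Pi.smul_apply, Pi.single_eq_same, smul_eq_mul] at this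
      linarith
    · obtain ⟨ε, hε, h⟩ := exists_eps hx (Pi.single 0 1)
      have := h.2.2
      simp only [Pi.add_apply, Pi.smul_apply, Pi.single_eq_same, smul_eq_mul] at this
      rw [Pi.single_eq_of_ne (by decide), Pi.single_eq_of_ne (by decide),
        Pi.single_eq_of_ne (by decide), Pi.single_eq_of_ne (by decide)] at this
      linarith
  · refine interior_maximal ?_ (isOpen_J 1)
    rintro x ⟨h1, h2, h3⟩
    exact ⟨fun i => (h1 i).le, h2.le, h3.le⟩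

/-- The lattice points of the `N`-th dilate. -/
def InP (N : ℤ) (a : Fin 5 → ℤ) : Prop :=
  (0 ≤ a 0 ∧ 0 ≤ a 1 ∧ 0 ≤ a 2 ∧ 0 ≤ a 3 ∧ 0 ≤ a 4) ∧ a 0 ≤ 3 * N ∧
    2 * a 0 + (a 1 + a 2 + a 3 + a 4) ≤ 7 * N

/-- The interior lattice points of the `N`-th dilate. -/
def InI (N : ℤ) (a : Fin 5 → ℤ) : Prop :=
  (0 < a 0 ∧ 0 < a 1 ∧ 0 < a 2 ∧ 0 < a 3 ∧ 0 < a 4) ∧ a 0 < 3 * N ∧
    2 * a 0 + (a 1 + a 2 + a 3 + a 4) < 7 * N

lemma mem_K (N : ℕ) (a : Fin 5 → ℤ) : pt a ∈ (N : ℝ) • poly ↔ InP N a := by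
  rw [poly_eq, smul_K]
  simp only [K, pt, InP, Set.mem_ofPred_eq, Fin.forall_fin_succ, Fin.forall_fin_zero]
  constructor
  · rintro ⟨⟨h0, h1, h2, h3, h4, -⟩, h5, h6⟩
    refine ⟨⟨?_, ?_, ?_, ?_, ?_⟩, ?_, ?_⟩
    · exact_mod_cast h0
    · exact_mod_cast h1
    · exact_mod_cast h2
    · exact_mod_cast h3
    · exact_mod_cast h4
    · exact_mod_cast h5
    · exact_mod_cast h6
  · rintro ⟨⟨h0, h1, h2, h3, h4⟩, h5, h6⟩
    refine ⟨⟨?_, ?_, ?_, ?_, ?_, trivial⟩, ?_, ?_⟩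
    · exact_mod_cast h0
    · exact_mod_cast h1
    · exact_mod_cast h2
    · exact_mod_cast h3
    · exact_mod_cast h4
    · exact_mod_cast h5
    · exact_mod_cast h6

lemma mem_J (N : ℕ) (hN : 0 < N) (a : Fin 5 → ℤ) :
    pt a ∈ (N : ℝ) • interior poly ↔ InI N a := by
  rw [poly_eq, interior_K, smul_J N hN]
  simp only [J, pt, InI, Set.mem_ofPred_eq, Fin.forall_fin_succ, Fin.forall_fin_zero]
  constructor
  · rintro ⟨⟨h0, h1, h2, h3, h4, -⟩, h5, h6⟩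
    refine ⟨⟨?_, ?_, ?_, ?_, ?_⟩, ?_, ?_⟩
    · exact_mod_cast h0
    · exact_mod_cast h1
    · exact_mod_cast h2
    · exact_mod_cast h3
    · exact_mod_cast h4
    · exact_mod_cast h5
    · exact_mod_cast h6
  · rintro ⟨⟨h0, h1, h2, h3, h4⟩, h5, h6⟩
    refine ⟨⟨?_, ?_, ?_, ?_, ?_, trivial⟩, ?_, ?_⟩
    · exact_mod_cast h0
    · exact_mod_cast h1
    · exact_mod_cast h2
    · exact_mod_cast h3
    · exact_mod_cast h4
    · exact_mod_cast h5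
    · exact_mod_cast h6

lemma aux1 (x0 x1 x2 x3 x4 N : ℤ) (hN : 1 ≤ N) (h0 : 0 ≤ x0) (h1 : 0 ≤ x1) (h2 : 0 ≤ x2)
    (h3 : 0 ≤ x3) (h4 : 0 ≤ x4) (h5 : x0 ≤ 3 * N) (h6 : 2 * x0 + (x1 + x2 + x3 + x4) ≤ 7 * N) :
    ∃ p0 p1 p2 p3 p4 : ℤ, (0 ≤ p0 ∧ 0 ≤ p1 ∧ 0 ≤ p2 ∧ 0 ≤ p3 ∧ 0 ≤ p4) ∧ p0 ≤ 3 * 1 ∧
      2 * p0 + (p1 + p2 + p3 + p4) ≤ 7 * 1 ∧
      (0 ≤ x0 - p0 ∧ 0 ≤ x1 - p1 ∧ 0 ≤ x2 - p2 ∧ 0 ≤ x3 - p3 ∧ 0 ≤ x4 - p4) ∧
      x0 - p0 ≤ 3 * (N - 1) ∧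
      2 * (x0 - p0) + (x1 - p1 + (x2 - p2) + (x3 - p3) + (x4 - p4)) ≤ 7 * (N - 1) := by
  obtain ⟨p0, hp0⟩ : ∃ p0, p0 = min 3 x0 := ⟨_, rfl⟩
  obtain ⟨t, ht⟩ : ∃ t, t = max 0 (2 * x0 + (x1 + x2 + x3 + x4) - 7 * (N - 1) - 2 * p0) :=
    ⟨_, rfl⟩
  obtain ⟨p1, hp1⟩ : ∃ p1, p1 = min t x1 := ⟨_, rfl⟩
  obtain ⟨p2, hp2⟩ : ∃ p2, p2 = min (t - p1) x2 := ⟨_, rfl⟩
  obtain ⟨p3, hp3⟩ : ∃ p3, p3 = min (t - p1 - p2) x3 := ⟨_, rfl⟩
  exact ⟨p0, p1, p2, p3, t - p1 - p2 - p3, by omega⟩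

lemma aux2 (x0 x1 x2 x3 x4 N : ℤ) (hN : N = 2 ∨ 4 ≤ N) (h0 : 0 < x0) (h1 : 0 < x1)
    (h2 : 0 < x2) (h3 : 0 < x3) (h4 : 0 < x4) (h5 : x0 < 3 * N)
    (h6 : 2 * x0 + (x1 + x2 + x3 + x4) < 7 * N) :
    ∃ p0 p1 p2 p3 p4 : ℤ, (0 ≤ p0 ∧ 0 ≤ p1 ∧ 0 ≤ p2 ∧ 0 ≤ p3 ∧ 0 ≤ p4) ∧ p0 ≤ 3 * 1 ∧
      2 * p0 + (p1 + p2 + p3 + p4) ≤ 7 * 1 ∧
      (0 < x0 - p0 ∧ 0 < x1 - p1 ∧ 0 < x2 - p2 ∧ 0 < x3 - p3 ∧ 0 < x4 - p4) ∧
      x0 - p0 < 3 * (N - 1) ∧
      2 * (x0 - p0) + (x1 - p1 + (x2 - p2) + (x3 - p3) + (x4 - p4)) < 7 * (N - 1) := by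
  obtain ⟨p0, hp0⟩ : ∃ p0, p0 = min 3 (x0 - 1) := ⟨_, rfl⟩
  obtain ⟨t, ht⟩ : ∃ t, t = max 0 (2 * x0 + (x1 + x2 + x3 + x4) - 7 * (N - 1) + 1 - 2 * p0) :=
    ⟨_, rfl⟩
  obtain ⟨p1, hp1⟩ : ∃ p1, p1 = min t (x1 - 1) := ⟨_, rfl⟩
  obtain ⟨p2, hp2⟩ : ∃ p2, p2 = min (t - p1) (x2 - 1) := ⟨_, rfl⟩
  obtain ⟨p3, hp3⟩ : ∃ p3, p3 = min (t - p1 - p2) (x3 - 1) := ⟨_, rfl⟩
  rcases hN with rfl | hN
  · exact ⟨p0, p1, p2, p3, t - p1 - p2 - p3, by omega⟩
  · exact ⟨p0, p1, p2, p3, t - p1 - p2 - p3, by omega⟩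

lemma step_K (N : ℤ) (hN : 1 ≤ N) (a : Fin 5 → ℤ) (ha : InP N a) :
    ∃ p, InP 1 p ∧ InP (N - 1) (a - p) := by
  obtain ⟨⟨h0, h1, h2, h3, h4⟩, h5, h6⟩ := ha
  obtain ⟨p0, p1, p2, p3, p4, e1, e2, e3, e4, e5, e6⟩ :=
    aux1 (a 0) (a 1) (a 2) (a 3) (a 4) N hN h0 h1 h2 h3 h4 h5 h6
  exact ⟨![p0, p1, p2, p3, p4], ⟨e1, e2, e3⟩, ⟨e4, e5, e6⟩⟩

lemma step_J (N : ℤ) (hN : N = 2 ∨ 4 ≤ N) (a : Fin 5 → ℤ) (ha : InI N a) :
    ∃ p, InP 1 p ∧ InI (N - 1) (a - p) := by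
  obtain ⟨⟨h0, h1, h2, h3, h4⟩, h5, h6⟩ := ha
  obtain ⟨p0, p1, p2, p3, p4, e1, e2, e3, e4, e5, e6⟩ :=
    aux2 (a 0) (a 1) (a 2) (a 3) (a 4) N hN h0 h1 h2 h3 h4 h5 h6
  exact ⟨![p0, p1, p2, p3, p4], ⟨e1, e2, e3⟩, ⟨e4, e5, e6⟩⟩

lemma InP_add {M N : ℤ} {a b : Fin 5 → ℤ} (ha : InP M a) (hb : InP N b) :
    InP (M + N) (a + b) := by
  obtain ⟨⟨h0, h1, h2, h3, h4⟩, h5, h6⟩ := ha
  obtain ⟨⟨k0, k1, k2, k3, k4⟩, k5, k6⟩ := hb
  simp only [InP, Pi.add_apply]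
  omega

lemma InP_zero : InP 0 0 := by
  simp [InP]

lemma exists_sum (N : ℕ) : ∀ a : Fin 5 → ℤ, InP N a →
    ∃ b : Fin N → (Fin 5 → ℤ), (∀ i, InP 1 (b i)) ∧ ∑ i, b i = a := by
  induction N with
  | zero =>
    intro a ha
    refine ⟨fun i => i.elim0, fun i => i.elim0, ?_⟩
    obtain ⟨⟨h0, h1, h2, h3, h4⟩, h5, h6⟩ := ha
    simp only [Nat.cast_zero] at h5 h6
    rw [Fin.sum_univ_zero]
    ext j
    fin_cases j <;> simp <;> omega
  | succ N ih =>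
    intro a ha
    obtain ⟨p, hp1, hp2⟩ := step_K _ (by push_cast; omega) a ha
    have e : (((N + 1 : ℕ) : ℤ) - 1) = (N : ℤ) := by push_cast; ring
    rw [e] at hp2
    obtain ⟨b, hb1, hb2⟩ := ih _ hp2
    refine ⟨Fin.cons p b, ?_, ?_⟩
    · intro i
      refine Fin.cases ?_ (fun j => ?_) i
      · simpa using hp1
      · simpa using hb1 j
    · rw [Fin.sum_univ_succ]
      simp only [Fin.cons_zero, Fin.cons_succ]
      rw [hb2]
      abel

/-- The integer form of a splitting. -/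
def Split (N r : ℕ) (a : Fin 5 → ℤ) : Prop :=
  1 ≤ r ∧ r ≤ N ∧ ∃ a₀ a' : Fin 5 → ℤ, InI r a₀ ∧ InP ((N : ℤ) - r) a' ∧ a = a₀ + a'

lemma mem_splitDegrees (N r : ℕ) (a : Fin 5 → ℤ) :
    r ∈ splitDegrees poly N a ↔ Split N r a := by
  constructor
  · rintro ⟨h1, h2, a₀, a', h3, h4, h5⟩
    refine ⟨h1, h2, a₀, a', (mem_J r h1 a₀).1 h3, ?_, h5⟩
    have := (mem_K (N - r) a').1 h4
    rwa [Nat.cast_sub h2] at this
  · rintro ⟨h1, h2, a₀, a', h3, h4, h5⟩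
    refine ⟨h1, h2, a₀, a', (mem_J r h1 a₀).2 h3, ?_, h5⟩
    apply (mem_K (N - r) a').2
    rwa [Nat.cast_sub h2]

lemma split_one_or_three (N : ℕ) : 1 ≤ N → ∀ a : Fin 5 → ℤ, InI N a →
    Split N 1 a ∨ Split N 3 a := by
  induction N with
  | zero => intro h; omega
  | succ N ih =>
    intro _ a ha
    rcases Nat.lt_or_ge N 3 with hlt | hge
    · interval_cases N
      · left
        exact ⟨le_rfl, le_rfl, a, 0, ha, by simpa using InP_zero, by simp⟩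
      · left
        obtain ⟨p, hp1, hp2⟩ := step_J _ (Or.inl (by norm_num)) a ha
        exact ⟨le_rfl, by norm_num, a - p, p, by simpa using hp2, by simpa using hp1, by abel⟩
      · right
        exact ⟨by norm_num, le_rfl, a, 0, ha, by simpa using InP_zero, by simp⟩
    · obtain ⟨p, hp1, hp2⟩ := step_J _ (Or.inr (by push_cast; omega)) a ha
      have e : (((N + 1 : ℕ) : ℤ) - 1) = (N : ℤ) := by push_cast; ring
      rw [e] at hp2
      have key : ∀ r : ℕ, Split N r (a - p) → Split (N + 1) r a := by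
        rintro r ⟨h1, h2, a₀, a', h3, h4, h5⟩
        refine ⟨h1, by omega, a₀, a' + p, h3, ?_, ?_⟩
        · have := InP_add h4 hp1
          have e2 : (((N + 1 : ℕ) : ℤ) - r) = (N : ℤ) - r + 1 := by push_cast; ring
          rwa [e2]
        · rw [← add_assoc, ← h5]
          abel
      rcases ih (by omega) _ hp2 with h | h
      · exact Or.inl (key 1 h)
      · exact Or.inr (key 3 h)

lemma split_two (N : ℕ) (a : Fin 5 → ℤ) (h : Split N 2 a) : Split N 1 a := by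
  obtain ⟨_, h2, a₀, a', h3, h4, h5⟩ := h
  obtain ⟨p, hp1, hp2⟩ := step_J _ (Or.inl (by norm_num)) a₀ h3
  refine ⟨le_rfl, by omega, a₀ - p, p + a', by simpa using hp2, ?_, ?_⟩
  · have := InP_add hp1 h4
    have e : (1 : ℤ) + ((N : ℤ) - (2 : ℕ)) = (N : ℤ) - (1 : ℕ) := by push_cast; ring
    rwa [e] at this
  · rw [h5]
    abel

lemma reducedDegree_cases (N : ℕ) (hN : 1 ≤ N) (a : Fin 5 → ℤ)
    (ha : pt a ∈ (N : ℝ) • interior poly) :
    (reducedDegree poly N a = 1 ∧ Split N 1 a) ∨ (reducedDegree poly N a = 3 ∧ ¬ Split N 1 a) := by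
  have h1 := split_one_or_three N hN a ((mem_J N hN a).1 ha)
  have hne : (splitDegrees poly N a).Nonempty := by
    rcases h1 with h | h
    · exact ⟨1, (mem_splitDegrees N 1 a).2 h⟩
    · exact ⟨3, (mem_splitDegrees N 3 a).2 h⟩
  have hmem : reducedDegree poly N a ∈ splitDegrees poly N a := Nat.sInf_mem hne
  have hm := (mem_splitDegrees _ _ _).1 hmem
  have hm1 : 1 ≤ reducedDegree poly N a := hm.1
  by_cases hs : Split N 1 a
  · left
    have : reducedDegree poly N a ≤ 1 := Nat.sInf_le ((mem_splitDegrees N 1 a).2 hs)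
    exact ⟨by omega, hs⟩
  · right
    have h3 : Split N 3 a := h1.resolve_left hs
    have h4 : reducedDegree poly N a ≤ 3 := Nat.sInf_le ((mem_splitDegrees N 3 a).2 h3)
    refine ⟨?_, hs⟩
    have h5 : reducedDegree poly N a ≠ 1 := by
      intro h
      rw [h] at hm
      exact hs hm
    have h6 : reducedDegree poly N a ≠ 2 := by
      intro h
      rw [h] at hm
      exact hs (split_two N a hm)
    omega

/-- **Negative answer to Q1.** There is a normal lattice polytope `P` in dimension `5` with an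
interior lattice point, of int* degree `3`, such that no lattice point of any `N P°` has reduced
`P`-degree exactly `2`. -/
theorem result : ∃ P : Set (Fin 5 → ℝ), IsLatticePolytope P ∧ (interior P).Nonempty ∧
    IsNormal P ∧ (∃ a : Fin 5 → ℤ, pt a ∈ interior P) ∧ HasIntStarDegree P 3 ∧
    ¬ Attained P 2 := by
  have hint : ∃ a : Fin 5 → ℤ, pt a ∈ interior poly := by
    refine ⟨![1, 1, 1, 1, 1], ?_⟩
    have := (mem_J 1 one_pos ![1, 1, 1, 1, 1]).2 (by simp [InI])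
    simpa using this
  refine ⟨poly, ?_, ?_, ?_, hint, ?_, ?_⟩
  · refine ⟨Finset.univ.image vert, ?_⟩
    rw [Finset.coe_image, Finset.coe_univ, Set.image_univ]
    rfl
  · obtain ⟨a, ha⟩ := hint
    exact ⟨_, ha⟩
  · intro N _ a ha
    obtain ⟨b, hb1, hb2⟩ := exists_sum N a ((mem_K N a).1 ha)
    refine ⟨b, fun i => ?_, hb2⟩
    have := (mem_K 1 (b i)).2 (by simpa using hb1 i)
    simpa using this
  · constructor
    · refine ⟨3, by norm_num, ![8, 1, 1, 1, 1], ?_, ?_⟩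
      · refine (mem_J 3 (by norm_num) _).2 ?_
        simp [InI]
      · have hI : pt ![8, 1, 1, 1, 1] ∈ ((3 : ℕ) : ℝ) • interior poly := by
          refine (mem_J 3 (by norm_num) _).2 ?_
          simp [InI]
        rcases reducedDegree_cases 3 (by norm_num) _ hI with h | h
        · exfalso
          obtain ⟨-, -, a₀, a', h3, h4, h5⟩ := h.2
          obtain ⟨⟨k0, k1, k2, k3, k4⟩, k5, k6⟩ := h3
          obtain ⟨⟨l0, l1, l2, l3, l4⟩, l5, l6⟩ := h4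
          have e0 : (8 : ℤ) = a₀ 0 + a' 0 := by simpa using congrFun h5 0
          have e1 : (1 : ℤ) = a₀ 1 + a' 1 := by simpa using congrFun h5 1
          have e2 : (1 : ℤ) = a₀ 2 + a' 2 := by simpa using congrFun h5 2
          have e3 : (1 : ℤ) = a₀ 3 + a' 3 := by simpa using congrFun h5 3
          have e4 : (1 : ℤ) = a₀ 4 + a' 4 := by simpa using congrFun h5 4
          push_cast at k5 k6 l5 l6
          omega
        · exact h.1
    · rintro i ⟨N, hN, a, ha, rfl⟩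
      rcases reducedDegree_cases N hN a ha with h | h
      · rw [h.1]
        norm_num
      · rw [h.1]
  · rintro ⟨N, hN, a, ha, h2⟩
    rcases reducedDegree_cases N hN a ha with h | h
    · omega
    · omega

end Pool.Agent.Results.MP_751e6a_co.ReducedDegreeGap
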